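import Pool.Agent.Q91.LB.Bet

set_option autoImplicit false
set_option linter.unusedSectionVars false

/-! # The Euler characteristic and co-amenable coverings

The cellular chain complex of the universal cover of a finite complex `M` (for instance of a closed
aspherical manifold) with fundamental group `G` is given by the numbers `c k` of the `k`-cells and
by matrices `d k` over the group ring.  The definitions of the `L²`-Betti numbers are in
`Pool/Agent/Q91/LB/Bet.lean`.
-/

open scoped ENNReal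

universe u

namespace Pool.Agent.Results.MP_8a95ee_gt.CoamenableEuler

open Pool.Agent.Q91.LB Pool.Agent.Q91.LB.Bet

/-- A complex of finitely generated free modules over the group algebra of `G`: `c k` is the rank in
degree `k`, the matrix `d k` gives the boundary map from degree `k + 1` to degree `k`. -/
structure Cx (G : Type u) [Group G] where
  c : ℕ → ℕ
  d : ∀ k, Fin (c k) → Fin (c (k + 1)) → (G →₀ ℂ)
  dd : ∀ (k : ℕ) (h : G × Fin (c (k + 2)) → ℂ), app (d k) (app (d (k + 1)) h) = 0

/-- The empty matrix: the boundary map from degree `0`. -/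
noncomputable def empty (G : Type u) [Group G] (n : ℕ) : Fin 0 → Fin n → (G →₀ ℂ) :=
  fun i => i.elim0

/-- The `L²`-Betti numbers `b_k(M)`. -/
noncomputable def b {G : Type u} [Group G] (M : Cx G) : ℕ → ℝ
  | 0 => betti (empty G (M.c 0)) (M.d 0)
  | k + 1 => betti (M.d k) (M.d (k + 1))

/-- The `L²`-Betti numbers `b_k(M_K)` over `K` of the covering `M_K`, in `[0, ∞]`. -/
noncomputable def bK {G : Type u} [Group G] (K : Subgroup G) (r : G ⧸ K → G) (M : Cx G) :
    ℕ → ℝ≥0∞
  | 0 => bettiCover K r (empty G (M.c 0)) (M.d 0)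
  | k + 1 => bettiCover K r (M.d k) (M.d (k + 1))

/-- The Euler characteristic: the alternating sum of the numbers of cells of dimension at most
`N`. -/
def chi {G : Type u} [Group G] (M : Cx G) (N : ℕ) : ℤ :=
  ∑ k ∈ Finset.range (N + 1), (-1) ^ k * (M.c k : ℤ)

section
variable {G : Type u} [Group G]

/-- the rank of the boundary map -/
noncomputable def rk (M : Cx G) (k : ℕ) : ℝ :=
  W649.ZL.vd (LinearMap.range (opM (M.d k) :
    W649.ZL.EE G (Fin (M.c (k + 1))) →ₗ[ℂ] W649.ZL.EE G (Fin (M.c k))))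

theorem opM_dd {m n p : ℕ} (A : Fin m → Fin n → (G →₀ ℂ)) (B : Fin n → Fin p → (G →₀ ℂ))
    (hAB : ∀ h : G × Fin p → ℂ, app A (app B h) = 0) (f : W649.ZL.EE G (Fin p)) :
    opM A (opM B f) = 0 := by
  ext x
  have h1 : vals (opM B f) = app B (vals f) := by
    funext y
    exact (app_eq B f y).symm
  rw [← app_eq, h1, hAB]
  rfl

theorem b_zero (M : Cx G) : b M 0 = M.c 0 - rk M 0 := by
  change betti (empty G (M.c 0)) (M.d 0) = _
  rw [betti_eq, vd_harm _ _ (opM_dd _ _ (fun h => by funext x; exact x.2.elim0))]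
  have h1 := W649.ZL.ker_add_range (opM (empty G (M.c 0))) (opM_eqv _)
  have h2 : W649.ZL.vd (LinearMap.range (opM (empty G (M.c 0)) :
      W649.ZL.EE G (Fin (M.c 0)) →ₗ[ℂ] W649.ZL.EE G (Fin 0))) = 0 := by
    apply le_antisymm _ (W649.ZL.vd_nonneg _)
    have := W649.ZL.vd_le_card (LinearMap.range (opM (empty G (M.c 0)) :
      W649.ZL.EE G (Fin (M.c 0)) →ₗ[ℂ] W649.ZL.EE G (Fin 0)))
    simpa using this
  rw [h2, add_zero, Fintype.card_fin] at h1
  rw [h1]
  rfl

theorem b_succ (M : Cx G) (k : ℕ) : b M (k + 1) = M.c (k + 1) - rk M k - rk M (k + 1) := by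
  change betti (M.d k) (M.d (k + 1)) = _
  rw [betti_eq, vd_harm _ _ (opM_dd _ _ (M.dd k))]
  have h1 := W649.ZL.ker_add_range (opM (M.d k)) (opM_eqv _)
  rw [Fintype.card_fin] at h1
  unfold rk
  linarith

/-- the Euler–Poincaré formula -/
theorem euler (M : Cx G) (N : ℕ) (hN : ∀ k, N < k → M.c k = 0) :
    (chi M N : ℝ) = ∑ k ∈ Finset.range (N + 1), (-1) ^ k * b M k := by
  have key : ∀ n : ℕ, ∑ k ∈ Finset.range (n + 1), (-1 : ℝ) ^ k * b M k
      = ∑ k ∈ Finset.range (n + 1), (-1 : ℝ) ^ k * M.c k - (-1) ^ n * rk M n := by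
    intro n
    induction n with
    | zero => simp [b_zero]
    | succ n ih =>
      rw [Finset.sum_range_succ, ih, Finset.sum_range_succ _ (n + 1), b_succ]
      ring
  have h0 : rk M N = 0 := by
    apply le_antisymm _ (W649.ZL.vd_nonneg _)
    have h1 := W649.ZL.ker_add_range (opM (M.d N)) (opM_eqv _)
    have h2 := W649.ZL.vd_nonneg (LinearMap.ker (opM (M.d N) :
      W649.ZL.EE G (Fin (M.c (N + 1))) →ₗ[ℂ] W649.ZL.EE G (Fin (M.c N))))
    have h3 : ((Fintype.card (Fin (M.c (N + 1))) : ℕ) : ℝ) = 0 := by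
      rw [Fintype.card_fin, hN (N + 1) (Nat.lt_succ_self N)]
      exact Nat.cast_zero
    rw [h3] at h1
    linarith
  rw [key N, h0, mul_zero, sub_zero]
  unfold chi
  push_cast
  rfl

theorem b_nonneg (M : Cx G) (k : ℕ) : 0 ≤ b M k := by
  cases k with
  | zero => exact betti_nonneg _ _
  | succ k => exact betti_nonneg _ _

theorem b_vanish (M : Cx G) (K : Subgroup G) (hK : CoAmenable K) (hinf : Infinite (G ⧸ K))
    (r : G ⧸ K → G) (hr : ∀ x, (r x : G ⧸ K) = x) (k : ℕ) (h : bK K r M k ≠ ⊤) : b M k = 0 := by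
  have key : ∀ {m n p : ℕ} (A : Fin m → Fin n → (G →₀ ℂ)) (B : Fin n → Fin p → (G →₀ ℂ)),
      bettiCover K r A B ≠ ⊤ → betti A B = 0 := by
    intro m n p A B hfin
    apply vanish K r hr A B hfin
    intro S δ ε hδ hε
    obtain ⟨N, hN⟩ := exists_nat_ge ((bettiCover K r A B).toReal / ε)
    obtain ⟨F, hF, hc⟩ := large K hK hinf S δ hδ N
    refine ⟨F, hF, ?_⟩
    have h1 : (N : ℝ) ≤ F.card := by exact_mod_cast hc
    rw [div_le_iff₀ hε] at hN
    nlinarith
  cases k with
  | zero => exact key _ _ h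
  | succ k => exact key _ _ h

end

/-- **The Euler characteristic and co-amenable coverings.** Let `M` be a finite complex with
fundamental group `G`, with no cells of dimension greater than `N`, and `K` a co-amenable subgroup of
`G` of infinite index (not necessarily normal).

(1) If `b_k(M_K)` is finite for all even `k` then `χ(M) ≤ 0`.
(2) If `b_k(M_K)` is finite for all odd `k` then `χ(M) ≥ 0`.
(3) If `b_k(M_K)` is finite for all `k` then `b_k(M) = 0` for all `k`, and `χ(M) = 0`. -/
theorem result {G : Type u} [Group G] (M : Cx G) (N : ℕ) (hN : ∀ k, N < k → M.c k = 0)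
    (K : Subgroup G) (hK : CoAmenable K) (hinf : Infinite (G ⧸ K))
    (r : G ⧸ K → G) (hr : ∀ x, (r x : G ⧸ K) = x) :
    ((∀ k, Even k → bK K r M k ≠ ⊤) → chi M N ≤ 0) ∧
    ((∀ k, Odd k → bK K r M k ≠ ⊤) → 0 ≤ chi M N) ∧
    ((∀ k, bK K r M k ≠ ⊤) → (∀ k, b M k = 0) ∧ chi M N = 0) := by
  have he := euler M N hN
  have h1 : (∀ k, Even k → bK K r M k ≠ ⊤) → chi M N ≤ 0 := by
    intro h
    have h2 : (chi M N : ℝ) ≤ 0 := by
      rw [he]
      refine Finset.sum_nonpos fun k _ => ?_
      rcases Nat.even_or_odd k with hk | hk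
      · rw [b_vanish M K hK hinf r hr k (h k hk), mul_zero]
      · rw [hk.neg_one_pow]
        have := b_nonneg M k
        linarith
    exact_mod_cast h2
  have h2 : (∀ k, Odd k → bK K r M k ≠ ⊤) → 0 ≤ chi M N := by
    intro h
    have h2 : (0 : ℝ) ≤ chi M N := by
      rw [he]
      refine Finset.sum_nonneg fun k _ => ?_
      rcases Nat.even_or_odd k with hk | hk
      · rw [hk.neg_one_pow, one_mul]
        exact b_nonneg M k
      · rw [b_vanish M K hK hinf r hr k (h k hk), mul_zero]
    exact_mod_cast h2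
  exact ⟨h1, h2, fun h => ⟨fun k => b_vanish M K hK hinf r hr k (h k),
    le_antisymm (h1 fun k _ => h k) (h2 fun k _ => h k)⟩⟩

end Pool.Agent.Results.MP_8a95ee_gt.CoamenableEuler
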