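import Pool.Agent.Q91.LB.Fp

set_option autoImplicit false

/-! # Vanishing Euler characteristic and co-amenable subgroups below the middle dimension

The definitions are in `Pool/Agent/Q91/LB/Defs.lean` and `Pool/Agent/Q91/LB/Defc.lean`.
-/

universe u

namespace Pool.Agent.Results.MP_8a95ee_gt.CoamenableVanishing

open Pool.Agent.Q91.LB Pool.Agent.Q91.LB.Bet Pool.Agent.Q91.LB.Cpx

/-- For each `k` with `0 < k ≤ n / 2` the `L²`-Betti number of the covering with group `K` is finite
in degree `k` or in degree `n - k`. -/
def MiddleFinite {G : Type u} [Group G] (K : Subgroup G) (r : G ⧸ K → G) (M : Cx G) (n : ℕ) :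
    Prop :=
  ∀ k, 1 ≤ k → 2 * k ≤ n → bK K r M k ≠ ⊤ ∨ bK K r M (n - k) ≠ ⊤

/-- Let `M` be a complex of finitely generated free modules over the group algebra of `G`, zero
above degree `n ≥ 1`, which is a resolution of `ℂ` and satisfies Poincaré duality of formal
dimension `n` (for instance the chain complex of the universal covering of a closed aspherical
`n`-manifold), and let `K` be a co-amenable subgroup of `G` of infinite index, not necessarily
normal. All `L²`-Betti numbers of `M` and the Euler characteristic of `M` vanish if one of the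
following holds.

(a) For each `k` with `0 < k ≤ n / 2` the `L²`-Betti number over `K` of the covering with group `K`
is finite in degree `k` or in degree `n - k`.
(b) `K` is of type `FP_s` over `ℂ` with `s ≥ n / 2`.
(c) For some `e = j + 1 < n / 2` the cycles of degree `e` are a direct summand of the chains over
`K` (this is so if `K` has cohomological dimension at most `e` over `ℂ`, for instance if `K` is free
of any rank and `n ≥ 3`). -/
theorem result {G : Type u} [Group G] (M : Cx G) (n : ℕ) (hn1 : 1 ≤ n)
    (hn : ∀ k, n < k → M.c k = 0)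
    (hA : Augmented M) (hM : ∀ k, ExactAt M k) (χ : G →* ℤˣ) (D : Duality M n χ)
    (K : Subgroup G) (hK : CoAmenable K) (hinf : Infinite (G ⧸ K))
    (r : G ⧸ K → G) (hr : ∀ x, (r x : G ⧸ K) = x)
    (h : MiddleFinite K r M n ∨ (∃ s, n ≤ 2 * s + 1 ∧ TypeFP K s) ∨
      ∃ j, 2 * (j + 1) < n ∧ CyclesSplit K M j) :
    (∀ k, b M k = 0) ∧ chi M n = 0 := by
  have hsymm := fun k l (hkl : k + l = n) => duality_eq χ M n hn D k l hkl
  have h0 : b M 0 = 0 := by
    apply b_vanish' M K hK hinf r hr
    exact ne_top_of_le_ne_top ENNReal.one_ne_top (cover_aug K r hr M hA)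
  have key : MiddleFinite K r M n → (∀ k, b M k = 0) ∧ chi M n = 0 := by
    intro hf
    have hlow : ∀ k, 2 * k ≤ n → b M k = 0 := by
      intro k hk
      rcases Nat.eq_zero_or_pos k with rfl | hk0
      · exact h0
      · rcases hf k hk0 hk with h1 | h1
        · exact b_vanish' M K hK hinf r hr k h1
        · rw [hsymm k (n - k) (by omega)]
          exact b_vanish' M K hK hinf r hr _ h1
    have hall : ∀ k, b M k = 0 := by
      intro k
      by_cases hkn : n < k
      · exact b_of_zero M k (hn k hkn)
      · by_cases h2 : 2 * k ≤ n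
        · exact hlow k h2
        · rw [hsymm k (n - k) (by omega)]
          exact hlow _ (by omega)
    refine ⟨hall, ?_⟩
    have he := euler' M n hn
    have h1 : ∑ k ∈ Finset.range (n + 1), (-1 : ℝ) ^ k * b M k = 0 :=
      Finset.sum_eq_zero fun k _ => by rw [hall k, mul_zero]
    rw [h1] at he
    exact_mod_cast he
  rcases h with h | ⟨s, hs, hF⟩ | ⟨j, hj, hc⟩
  · exact key h
  · apply key
    intro k _ hk
    exact Or.inl (finite_of_FP K r hr M hA hM s hF k (by omega))
  · apply key
    intro k hk hkn
    right
    obtain ⟨i, hi⟩ : ∃ i, n - k = i + 2 := ⟨n - k - 2, by omega⟩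
    rw [hi]
    change bettiCover K r (M.d (i + 1)) (M.d (i + 2)) ≠ ⊤
    rw [cover_zero_of_split K r hr M j (fun k _ => hM k) hc i (by omega)]
    exact ENNReal.zero_ne_top

end Pool.Agent.Results.MP_8a95ee_gt.CoamenableVanishing
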