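import Pool.Agent.Q134.SV.Cls

/-!
Gromov's question for right-angled reflection manifolds.

Let `L` be the flag complex of a finite graph `G`. If `L` is a flag triangulation of the sphere of
dimension `n - 1` (as a combinatorial manifold), then the Davis complex `Σ` of the right-angled
Coxeter group `W G` is a contractible `n`-manifold, and `M = Σ/H` is a closed oriented aspherical
`n`-manifold with fundamental group `H` and `χ(M) = [W G : H] χ(W G)`, for each torsion-free subgroup
`H` of finite index all of whose elements have even length. By Gromov's duality principle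
`‖M‖ = 0` if and only if the comparison map `H_b^n(H; ℝ) → H^n(H; ℝ)` is zero (`ZeroSV n H`).

The theorem: `‖M‖ = 0` implies `χ(M) = 0` for all `L` in the class `Cls n`
(`Pool.Agent.Q134.SV.Cls`). This class contains e.g. all polygons, the boundaries of the
cross-polytopes, all complexes obtained from them by subdivisions of edges with links in the class
(e.g. the duals of the flag nestohedra: permutohedra, associahedra, cyclohedra), joins and sums.

Idea: let `s t` be an edge in no induced cycle of length four, with link `K`. Then there are
simplicial maps of degree one from `L` to the contraction `L/st` and to the join of a pentagon with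
`K`: the vertex `s` is mapped to a vertex of the pentagon, `t` to its neighbour, the other neighbours
of `t` resp. `s` outside of `K` to the next vertex on each side, and all other vertices outside of `K`
to the last vertex. They induce homomorphisms of the Coxeter groups along which bounded cocycles can
be pulled back, and `χ(W_L) = χ(W_{L/st}) - χ(W_K)/4`.
-/

set_option autoImplicit false

open scoped Classical

namespace Pool.Agent.Results.MP_8a95ee_gt.ReflectionManifolds

open Pool.Agent.W907.SG Pool.Agent.Q134.SV

/-- (1) Let the flag complex `L` of `G` be in the class `Cls n`, `n ≥ 1`, and let `H` be a subgroup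
of finite index of `W G` which consists of elements of even length. If every bounded real `n`-cocycle
of `H` is a coboundary, then `χ(W G) = 0`.

(2) Let `L` be a pseudo-manifold of dimension `n + 1` (`OPM (n + 2) G`, not necessarily in the
class), `s t` an edge in no induced cycle of length four whose link `K` is in the class `Cls n`, with
`χ(W K) ≠ 0`. Then there is a bounded real `(n + 2)`-cocycle of `H` which is not a coboundary, for
all subgroups `H` of finite index of `W G` which consist of elements of even length.

(3) Let `n ≥ 1` and let `L₀` be a flag complex which is positive (`Pos n G₀`) or in the class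
`Cls n` with `χ(W G₀) ≠ 0`. If a simplicial map from `L` to `L₀` maps some `(n-1)`-cycle to a nonzero
cycle, then there is a bounded real `n`-cocycle of `H` which is not a coboundary, for all subgroups
`H` of finite index of `W G` which consist of elements of even length. -/
theorem result :
    (∀ (n : ℕ) (V : Type) [Fintype V] (G : SimpleGraph V), Cls (n + 1) V G →
      ∀ H : Subgroup (W G), H.index ≠ 0 → H ≤ (par G).ker → ZeroSV (n + 1) H → chiW G = 0) ∧
    (∀ (n : ℕ) (V : Type) [Fintype V] (G : SimpleGraph V) (s t : V)
      [Fintype ↥(G.neighborSet s ∩ G.neighborSet t)],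
      OPM (n + 2) G → G.Adj s t → NoSquare G s t →
      Cls n ↥(G.neighborSet s ∩ G.neighborSet t) (G.induce (G.neighborSet s ∩ G.neighborSet t)) →
      chiW (G.induce (G.neighborSet s ∩ G.neighborSet t)) ≠ 0 →
      ∀ H : Subgroup (W G), H.index ≠ 0 → H ≤ (par G).ker → ¬ ZeroSV (n + 2) H) ∧
    (∀ (n : ℕ) (V V₀ : Type) [Fintype V] [Fintype V₀] (G : SimpleGraph V) (G₀ : SimpleGraph V₀)
      (f : V → V₀) (a : (Fin (n + 1) → V) → ℝ),
      Pos (n + 1) G₀ ∨ (Cls (n + 1) V₀ G₀ ∧ chiW G₀ ≠ 0) →
      (∀ x y, G.Adj x y → f x = f y ∨ G₀.Adj (f x) (f y)) → IsCyc (n + 1) G a → push f a ≠ 0 →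
      ∀ H : Subgroup (W G), H.index ≠ 0 → H ≤ (par G).ker → ¬ ZeroSV (n + 1) H) := by
  refine ⟨?_, ?_, ?_⟩
  · intro n V _ G hG H hH hε hz
    by_contra hχ
    obtain ⟨hO, hP⟩ := cls_main hG
    obtain ⟨a, ha, hne⟩ := hO.ex
    obtain ⟨c, hc, hp⟩ := hP hχ a ha hne
    exact not_zeroSV ha hc hp H hH hε hz
  · intro n V _ G s t _ hG hst hsq hK hχ H hH hε hz
    obtain ⟨hKO, hKP⟩ := cls_main hK
    obtain ⟨a, ha, hne⟩ := hG.ex
    obtain ⟨c, hc, hp⟩ := pos_of_link hG hst hsq hKO (hKP hχ) a ha hne
    exact not_zeroSV ha hc hp H hH hε hz
  · intro n V V₀ _ _ G G₀ f a h₀ hf ha hne H hH hε hz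
    have hP : Pos (n + 1) G₀ := by
      rcases h₀ with h | h
      · exact h
      · exact (cls_main h.1).2 h.2
    obtain ⟨c, hc, hp⟩ := pos_of_push f hf hP ha hne
    exact not_zeroSV ha hc hp H hH hε hz

end Pool.Agent.Results.MP_8a95ee_gt.ReflectionManifolds
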