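import Mathlib
/-!
# Simplicial volume zero and the Euler characteristic: a sublinear bound suffices

Gromov's question Q1: `‖M‖ = 0` implies `χ(M) = 0` for closed oriented aspherical manifolds. Trivially
`|χ(M)| ≤ c(M)`, where `c(M)` is the least number of cells of a finite CW complex homotopy equivalent
to `M`. It is shown that Q1 is equivalent to any improvement of this bound by an arbitrarily small
factor, up to an additive constant, in an arbitrary unbounded set of even dimensions:
for all `ε > 0` there is a `C` such that `|χ(M)| ≤ ε c(M) + C` if `‖M‖ = 0`. In particular it is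
enough to bound the Euler characteristics of the `n`-manifolds with `‖M‖ = 0` by a constant that
depends on `n`, for infinitely many `n`.
-/
set_option autoImplicit false

namespace Pool.Agent.Results.MP_8a95ee_gt.SublinearBoundSuffices

universe u

/-- Closed connected oriented aspherical manifolds. -/
structure Mfds where
  /-- the manifolds -/
  Mfd : Type u
  /-- the dimension -/
  dim : Mfd → ℕ
  /-- the Euler characteristic -/
  chi : Mfd → ℤ
  /-- the simplicial volume -/
  sv : Mfd → ℝ
  /-- the least number of cells of a finite CW complex homotopy equivalent to the manifold -/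
  cells : Mfd → ℕ

/-- The known properties. -/
structure IsKnown (T : Mfds.{u}) : Prop where
  /-- products are aspherical; Gromov: `‖M × N‖ ≤ C ‖M‖ ‖N‖`, so it vanishes if `‖M‖ = 0` -/
  prod : ∀ M N : T.Mfd, ∃ P : T.Mfd, T.dim P = T.dim M + T.dim N ∧ T.chi P = T.chi M * T.chi N ∧
    T.cells P ≤ T.cells M * T.cells N ∧ (T.sv M = 0 → T.sv P = 0)
  /-- the surface of genus `d + 1` has Euler characteristic `- 2 d` and `2 (d + 1) + 2` cells -/
  surface : ∀ d : ℕ, 1 ≤ d → ∃ S : T.Mfd, T.dim S = 2 ∧ T.chi S = -(2 * d) ∧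
    T.cells S ≤ 2 * d + 4
  /-- Poincaré duality -/
  odd : ∀ M : T.Mfd, Odd (T.dim M) → T.chi M = 0

/-- Q1 in dimension `n`. -/
def Holds (T : Mfds.{u}) (n : ℕ) : Prop :=
  ∀ M : T.Mfd, T.dim M = n → T.sv M = 0 → T.chi M = 0

/-- For every `ε > 0` there is a constant `C` such that `|χ(M)| ≤ ε c(M) + C` for all `n`-manifolds
with `‖M‖ = 0`. -/
def Sublinear (T : Mfds.{u}) (n : ℕ) : Prop :=
  ∀ ε : ℝ, 0 < ε → ∃ C : ℝ, ∀ M : T.Mfd, T.dim M = n → T.sv M = 0 →
    |(T.chi M : ℝ)| ≤ ε * T.cells M + C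

/-- The Euler characteristics of the `n`-manifolds with `‖M‖ = 0` are bounded. -/
def Bounded (T : Mfds.{u}) (n : ℕ) : Prop :=
  ∃ C : ℝ, ∀ M : T.Mfd, T.dim M = n → T.sv M = 0 → |(T.chi M : ℝ)| ≤ C

variable {T : Mfds.{u}}

theorem holds_of_sublinear (h : IsKnown T) {n : ℕ} (hs : Sublinear T (n + 2)) : Holds T n := by
  intro M hM hsv
  by_contra hchi
  have hc0 : (0 : ℝ) ≤ T.cells M := Nat.cast_nonneg _
  obtain ⟨C, hC⟩ := hs (1 / (4 * (T.cells M + 1))) (by positivity)
  obtain ⟨d, hd⟩ := exists_nat_gt (max 1 (1 + C))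
  have hd1 : (1 : ℝ) < d := (le_max_left _ _).trans_lt hd
  have hdC : 1 + C < d := (le_max_right _ _).trans_lt hd
  have hd1' : 1 ≤ d := by
    have : (1 : ℕ) < d := by exact_mod_cast hd1
    omega
  obtain ⟨S, hS1, hS2, hS3⟩ := h.surface d hd1'
  obtain ⟨P, hP1, hP2, hP3, hP4⟩ := h.prod M S
  have h1 := hC P (by rw [hP1, hM, hS1]) (hP4 hsv)
  have h2 : (T.chi P : ℝ) = T.chi M * (-(2 * d)) := by
    rw [hP2, hS2]
    push_cast
    ring
  have h3 : (1 : ℝ) ≤ |(T.chi M : ℝ)| := by
    have : (1 : ℤ) ≤ |T.chi M| := Int.one_le_abs hchi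
    exact_mod_cast this
  rw [h2, abs_mul, abs_neg, abs_of_nonneg (by positivity : (0 : ℝ) ≤ 2 * d)] at h1
  have h4 : (T.cells P : ℝ) ≤ T.cells M * (2 * d + 4) := by
    have h5 : T.cells P ≤ T.cells M * (2 * d + 4) := hP3.trans (Nat.mul_le_mul_left _ hS3)
    exact_mod_cast h5
  have h5 : 1 / (4 * ((T.cells M : ℝ) + 1)) * T.cells P ≤ (2 * d + 4) / 4 := by
    have h6 : 1 / (4 * ((T.cells M : ℝ) + 1)) * T.cells P ≤
        1 / (4 * ((T.cells M : ℝ) + 1)) * ((T.cells M + 1) * (2 * d + 4)) := by
      refine mul_le_mul_of_nonneg_left (h4.trans ?_) (by positivity)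
      exact mul_le_mul_of_nonneg_right (by linarith) (by positivity)
    refine h6.trans (le_of_eq ?_)
    field_simp
  have h6 : (2 : ℝ) * d ≤ |(T.chi M : ℝ)| * (2 * d) := by nlinarith
  linarith

theorem sublinear_of_holds {n : ℕ} (h : Holds T n) : Sublinear T n := by
  intro ε hε
  refine ⟨0, fun M hM hs => ?_⟩
  rw [h M hM hs]
  simp only [Int.cast_zero, abs_zero, add_zero]
  positivity

theorem bounded_of_holds {n : ℕ} (h : Holds T n) : Bounded T n :=
  ⟨0, fun M hM hs => by rw [h M hM hs]; simp⟩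

theorem sublinear_of_bounded {n : ℕ} (h : Bounded T n) : Sublinear T n := by
  intro ε hε
  obtain ⟨C, hC⟩ := h
  refine ⟨C, fun M hM hs => (hC M hM hs).trans ?_⟩
  have : 0 ≤ ε * (T.cells M : ℝ) := by positivity
  linarith

/-- Q1 in dimension `n` follows from a sublinear bound in dimension `n + 2`, and Q1 is equivalent to
its restriction to any unbounded set `K` of even dimensions, to the boundedness of the Euler
characteristics in these dimensions, and to the sublinear bounds in these dimensions. -/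
theorem result (T : Mfds.{u}) (h : IsKnown T) :
    (∀ n, Sublinear T (n + 2) → Holds T n) ∧
    ∀ K : Set ℕ, (∀ k ∈ K, Even k) → (∀ b, ∃ k ∈ K, b ≤ k) →
      List.TFAE [∀ n, Holds T n, ∀ n ∈ K, Holds T n, ∀ n ∈ K, Bounded T n,
        ∀ n ∈ K, Sublinear T n] := by
  have hstep : ∀ n m, Sublinear T (n + 2 * (m + 1)) → Holds T n := by
    intro n m
    induction m with
    | zero => exact fun hs => holds_of_sublinear h hs
    | succ m ih =>
      intro hs
      refine ih (sublinear_of_holds (holds_of_sublinear h ?_))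
      have e : n + 2 * (m + 1) + 2 = n + 2 * (m + 1 + 1) := by ring
      rw [e]
      exact hs
  refine ⟨fun n hs => holds_of_sublinear h hs, fun K hK hb => ?_⟩
  tfae_have 1 → 2 := fun h1 n _ => h1 n
  tfae_have 2 → 3 := fun h1 n hn => bounded_of_holds (h1 n hn)
  tfae_have 3 → 4 := fun h1 n hn => sublinear_of_bounded (h1 n hn)
  tfae_have 4 → 1 := by
    intro h4 n
    rcases Nat.even_or_odd n with he | ho
    · obtain ⟨k, hk, hkn⟩ := hb (n + 2)
      obtain ⟨m, hm⟩ : ∃ m, k = n + 2 * (m + 1) := by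
        obtain ⟨a, ha⟩ := he
        obtain ⟨c, hc⟩ := hK k hk
        exact ⟨c - a - 1, by omega⟩
      exact hstep n m (hm ▸ h4 k hk)
    · intro M hM _
      exact h.odd M (hM ▸ ho)
  tfae_finish

end Pool.Agent.Results.MP_8a95ee_gt.SublinearBoundSuffices
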